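import Pool.Agent.R937.VS.Defs
import Pool.Agent.Y137.TV.Defs

/-!
# Tate classes on the products of an arbitrary variety with elliptic curves and abelian surfaces:
# the splitting criterion, definitions
-/

set_option autoImplicit false

namespace Pool.Agent.N522.VT

open Pool.Agent.W495.TA Pool.Agent.Y137.SF Pool.Agent.R937.VS Module
open Pool.Agent.Y137.TV (IsIndependent IsOddSupersingular)
open scoped TensorProduct

noncomputable section

variable {p : ℕ} [Fact p.Prime] {ν : PadicAlgCl p ≃+* ℂ} {Ω : Type} [Field Ω] [CharZero Ω]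
  {M : Type} [AddCommGroup M] [Module Ω M]

/-- The `2`-group condition: the Galois groups (over `ℚ`) of the powers `x ^ n`, `n > 0`, of the
algebraic number `x` never have the property that `g ^ 4 = 1` for all elements `g` and all squares are
central. (For example, this is true if the degree of `x ^ n` is not a power of two, for all `n > 0`.) -/
def HasLargeGalois {K : Type} [Field K] [NumberField K] (x : K) : Prop :=
  ∀ n : ℕ, 0 < n → ∃ g h : (minpoly ℚ (x ^ n)).Gal, g ^ 4 ≠ 1 ∨ g ^ 2 * h ≠ h * g ^ 2

/-- The eigenvalue `α` of the Frobenius endomorphism on the cohomology `H^b(V)` of a variety `V` over the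
field with `p ^ a` elements is the image of a number `x` in a number field `K`, all conjugates of `x`
have the absolute value `p ^ (a b / 2)` (Deligne); let `s_ψ` be the slope of the conjugate `ψ x`. One of
the following conditions is satisfied:

* all slopes are equal to `b / 2`;
* some slope is not one half of an integer;
* some number `|2 s_ψ - b|` is greater than two times the mean value of the squares of these numbers
  (for example: this mean value is smaller than one half, and not zero);
* the Galois groups of the powers of `x` are large;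
* `α` is independent of `Y`. -/
def IsSeparated (Y : RedAV p ν) (a b : ℕ) (α : Ω) : Prop :=
  ∃ (K : Type) (_ : Field K) (_ : NumberField K) (ι : K →+* Ω) (x : K), ι x = α ∧
    (∀ ψ : K →+* ℂ, ‖ψ x‖ ^ 2 = (p : ℝ) ^ (a * b)) ∧
    ((∀ ψ : K →+* ℂ, 2 * slope p ν a (ψ x) = b) ∨
      (∃ ψ : K →+* ℂ, ∀ n : ℤ, 2 * slope p ν a (ψ x) ≠ n) ∨
      (∃ ψ : K →+* ℂ, 2 * ∑ ψ' : K →+* ℂ, (2 * slope p ν a (ψ' x) - b) ^ 2 <
        |2 * slope p ν a (ψ x) - b| * finrank ℚ K) ∨
      HasLargeGalois x ∨ IsIndependent Y α)

/-- `g = f ⊗ w`, where `f` is a Tate class of degree `2 m` on `Y`, over a finite extension, that belongs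
to the system `AlgS` generated by the Tate classes of degree two and the reductions of the Hodge classes of
degree four on products of elliptic curves and abelian surfaces of CM type, and `w ∈ M = H^b(V)` is a
Tate class of codimension `d`, `b = 2 d` (for `r = 1`; or it belongs to the corresponding generalised
eigenspace), over a finite extension of the field with `p ^ a` elements. -/
def IsProductClass (Y : RedAV p ν) (a b : ℕ) (φ : M →ₗ[Ω] M) (r m : ℕ)
    (g : (TM Ω Y) [⋀^Fin (2 * m)]→ₗ[Ω] M) : Prop :=
  ∃ (d s t : ℕ) (f : (TM Ω Y) [⋀^Fin (2 * m)]→ₗ[Ω] Ω) (w : M), b = 2 * d ∧ 0 < s ∧ 0 < t ∧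
    IsTateClass Ω Y s m f ∧ AlgS Ω ∅ Y (Fin (2 * m)) f ∧
    IsGen (pw φ t) ((p : Ω) ^ (a * t * d)) r w ∧ ∀ v, g v = f v • w

end

end Pool.Agent.N522.VT
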