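import Pool.Agent.R937.VS.Short

/-!
# Squares modulo the core of the stabilizer of a sign function
-/

set_option autoImplicit false
set_option linter.unusedSectionVars false
set_option linter.unusedVariables false

namespace Pool.Agent.N522.VT

open Pool.Agent.W495.TA Pool.Agent.W495.TC Pool.Agent.TH117.BL Pool.Agent.Y137.SF
  Pool.Agent.R937.CS Pool.Agent.R937.VS

noncomputable section

variable {G : Type} [Group G] [Finite G] (c : G) (hcomm : ∀ g, c * g = g * c) (hc2 : c * c = 1)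

include hcomm hc2

/-- Each square acts on the cosets of a subgroup of index at most four as `1` or as `c`. -/
theorem sq_dich (H : Subgroup G) (hcH : c ∉ H) (hidx : H.index ≤ 4) (g : G) :
    (∀ a, a⁻¹ * (g * g) * a ∈ H) ∨ (∀ a, a⁻¹ * (c * (g * g)) * a ∈ H) := by
  classical
  have hci : c⁻¹ = c := inv_eq_of_mul_eq_one_right hc2
  have e1 : ∀ y : G, y⁻¹ * (c * y) = c := fun y => by
    rw [hcomm, inv_mul_cancel_left]
  by_cases h : ∃ a, a⁻¹ * (g * a) ∉ H ∧ a⁻¹ * (c * (g * a)) ∉ H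
  · obtain ⟨a, h1, h2⟩ := h
    have hcos := four_cosets H hidx ![a, c * a, g * a, c * (g * a)] (by
      intro i k hik
      fin_cases i <;> fin_cases k <;> first
        | exact absurd hik (by decide)
        | skip
      · change a⁻¹ * (c * a) ∉ H
        rwa [e1]
      · exact h1
      · exact h2
      · change (c * a)⁻¹ * (g * a) ∉ H
        have e2 : (c * a)⁻¹ * (g * a) = a⁻¹ * (c * (g * a)) := by
          rw [mul_inv_rev, hci, mul_assoc]
        rwa [e2]
      · change (c * a)⁻¹ * (c * (g * a)) ∉ H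
        have e2 : (c * a)⁻¹ * (c * (g * a)) = a⁻¹ * (g * a) := by
          rw [mul_inv_rev, mul_assoc, inv_mul_cancel_left]
        rwa [e2]
      · change (g * a)⁻¹ * (c * (g * a)) ∉ H
        rwa [e1])
    -- the conjugates by the representatives determine all conjugates
    have key : ∀ z : G, (∀ i, ((![a, c * a, g * a, c * (g * a)] : Fin 4 → G) i)⁻¹ * z *
        (![a, c * a, g * a, c * (g * a)] : Fin 4 → G) i ∈ H) → ∀ y, y⁻¹ * z * y ∈ H := by
      intro z hz y
      obtain ⟨i, hi⟩ := hcos y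
      have h3 := H.mul_mem (H.mul_mem (H.inv_mem hi) (hz i)) hi
      have e2 : (((![a, c * a, g * a, c * (g * a)] : Fin 4 → G) i)⁻¹ * y)⁻¹ *
          (((![a, c * a, g * a, c * (g * a)] : Fin 4 → G) i)⁻¹ * z *
          (![a, c * a, g * a, c * (g * a)] : Fin 4 → G) i) *
          (((![a, c * a, g * a, c * (g * a)] : Fin 4 → G) i)⁻¹ * y) = y⁻¹ * z * y := by
        group
      rwa [e2] at h3
    have hconjc : ∀ z y : G, (∀ x, c * x = x * c) → (c * y)⁻¹ * z * (c * y) = y⁻¹ * z * y := by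
      intro z y _
      rw [mul_inv_rev, hci, mul_assoc y⁻¹ c z, hcomm z, mul_assoc, mul_assoc z c, ← mul_assoc c c,
        hc2, one_mul, ← mul_assoc]
    obtain ⟨i, hi⟩ := hcos (g * (g * a))
    fin_cases i
    · left
      have h3 : a⁻¹ * (g * (g * a)) ∈ H := hi
      have h4 : a⁻¹ * (g * g) * a ∈ H := by
        have e2 : a⁻¹ * (g * g) * a = a⁻¹ * (g * (g * a)) := by group
        rwa [e2]
      have h5 : (g * a)⁻¹ * (g * g) * (g * a) ∈ H := by
        have e2 : (g * a)⁻¹ * (g * g) * (g * a) = a⁻¹ * (g * g) * a := by group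
        rwa [e2]
      refine key _ fun i => ?_
      fin_cases i
      · exact h4
      · change (c * a)⁻¹ * (g * g) * (c * a) ∈ H
        rwa [hconjc _ _ hcomm]
      · exact h5
      · change (c * (g * a))⁻¹ * (g * g) * (c * (g * a)) ∈ H
        rwa [hconjc _ _ hcomm]
    · right
      have h3 : (c * a)⁻¹ * (g * (g * a)) ∈ H := hi
      have h4 : a⁻¹ * (c * (g * g)) * a ∈ H := by
        have e2 : a⁻¹ * (c * (g * g)) * a = (c * a)⁻¹ * (g * (g * a)) := by
          rw [mul_inv_rev, hci]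
          group
        rwa [e2]
      have h5 : (g * a)⁻¹ * (c * (g * g)) * (g * a) ∈ H := by
        have e2 : (g * a)⁻¹ * (c * (g * g)) * (g * a) = a⁻¹ * (c * (g * g)) * a := by
          rw [hcomm (g * g), mul_inv_rev]
          have e3 : a⁻¹ * g⁻¹ * (g * g * c) * (g * a) = a⁻¹ * g * (c * g) * a := by group
          rw [e3, hcomm g]
          group
        rwa [e2]
      refine key _ fun i => ?_
      fin_cases i
      · exact h4
      · change (c * a)⁻¹ * (c * (g * g)) * (c * a) ∈ H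
        rwa [hconjc _ _ hcomm]
      · exact h5
      · change (c * (g * a))⁻¹ * (c * (g * g)) * (c * (g * a)) ∈ H
        rwa [hconjc _ _ hcomm]
    · exfalso
      have h3 : (g * a)⁻¹ * (g * (g * a)) ∈ H := hi
      have e2 : (g * a)⁻¹ * (g * (g * a)) = a⁻¹ * (g * a) := by group
      rw [e2] at h3
      exact h1 h3
    · exfalso
      have h3 : (c * (g * a))⁻¹ * (g * (g * a)) ∈ H := hi
      have e2 : (c * (g * a))⁻¹ * (g * (g * a)) = a⁻¹ * (c * (g * a)) := by
        rw [mul_inv_rev, hci, mul_inv_rev]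
        have e3 : a⁻¹ * g⁻¹ * c * (g * (g * a)) = a⁻¹ * g⁻¹ * (c * g) * (g * a) := by group
        rw [e3, hcomm g]
        have e4 : a⁻¹ * g⁻¹ * (g * c) * (g * a) = a⁻¹ * (c * (g * a)) := by group
        exact e4
      rw [e2] at h3
      exact h2 h3
  · left
    push Not at h
    intro a
    by_cases h1 : a⁻¹ * (g * a) ∈ H
    · have h2 := H.mul_mem h1 h1
      have e2 : a⁻¹ * (g * a) * (a⁻¹ * (g * a)) = a⁻¹ * (g * g) * a := by group
      rwa [e2] at h2
    · have h2 := h a h1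
      have h3 := H.mul_mem h2 h2
      have e2 : a⁻¹ * (c * (g * a)) * (a⁻¹ * (c * (g * a))) = a⁻¹ * (g * g) * a := by
        have e3 : a⁻¹ * (c * (g * a)) * (a⁻¹ * (c * (g * a))) = a⁻¹ * (c * g * c) * g * a := by
          group
        rw [e3, hcomm g, mul_assoc g c c, hc2, mul_one]
        group
      rwa [e2] at h3

/-- Fourth powers are in the core. -/
theorem pow_four_mem (f : G → ℤ) (hf : IsSign c f) (hidx : (rst f).index ≤ 4) (g : G) :
    g ^ 4 ∈ (rst f).normalCore := by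
  intro b
  have hci : c⁻¹ = c := inv_eq_of_mul_eq_one_right hc2
  have h4 : g ^ 4 = g * g * (g * g) := by
    rw [show (4 : ℕ) = 2 + 2 from rfl, pow_add, pow_two]
  rw [h4]
  rcases sq_dich c hcomm hc2 (rst f) (c_notMem c hf) hidx g with h | h
  · have h1 := (rst f).mul_mem (h b⁻¹) (h b⁻¹)
    have e1 : b⁻¹⁻¹ * (g * g) * b⁻¹ * (b⁻¹⁻¹ * (g * g) * b⁻¹) = b * (g * g * (g * g)) * b⁻¹ := by group
    rwa [e1] at h1
  · have h1 := (rst f).mul_mem (h b⁻¹) (h b⁻¹)
    have e1 : b⁻¹⁻¹ * (c * (g * g)) * b⁻¹ * (b⁻¹⁻¹ * (c * (g * g)) * b⁻¹) = b * (g * g * (g * g)) * b⁻¹ := by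
      have e2 : b⁻¹⁻¹ * (c * (g * g)) * b⁻¹ * (b⁻¹⁻¹ * (c * (g * g)) * b⁻¹) =
          b * (c * (g * g)) * c * (g * g) * b⁻¹ := by group
      rw [e2, hcomm (g * g), mul_assoc b, mul_assoc (g * g) c c, hc2, mul_one]
      group
    rwa [e1] at h1

/-- Squares are central modulo the core. -/
theorem sq_comm_mem (f : G → ℤ) (hf : IsSign c f) (hidx : (rst f).index ≤ 4) (g h : G) :
    (h * g ^ 2)⁻¹ * (g ^ 2 * h) ∈ (rst f).normalCore := by
  rw [pow_two]
  have hn : (rst f).normalCore.Normal := Subgroup.normalCore_normal _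
  rcases sq_dich c hcomm hc2 (rst f) (c_notMem c hf) hidx g with h1 | h1
  · have h2 : (g * g) ∈ (rst f).normalCore := by
      intro b
      have h3 := h1 b⁻¹
      have e1 : b⁻¹⁻¹ * (g * g) * b⁻¹ = b * (g * g) * b⁻¹ := by group
      rwa [e1] at h3
    have h3 := hn.conj_mem _ h2 h⁻¹
    have h4 := (rst f).normalCore.mul_mem ((rst f).normalCore.inv_mem h2) h3
    have e1 : ((g * g))⁻¹ * (h⁻¹ * (g * g) * h⁻¹⁻¹) = (h * (g * g))⁻¹ * ((g * g) * h) := by group
    rwa [e1] at h4
  · have h2 : c * (g * g) ∈ (rst f).normalCore := by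
      intro b
      have h3 := h1 b⁻¹
      have e1 : b⁻¹⁻¹ * (c * (g * g)) * b⁻¹ = b * (c * (g * g)) * b⁻¹ := by group
      rwa [e1] at h3
    have h3 := hn.conj_mem _ h2 h⁻¹
    have h4 := (rst f).normalCore.mul_mem ((rst f).normalCore.inv_mem h2) h3
    have e1 : (c * (g * g))⁻¹ * (h⁻¹ * (c * (g * g)) * h⁻¹⁻¹) = (h * (g * g))⁻¹ * ((g * g) * h) := by
      have e2 : (c * (g * g))⁻¹ * (h⁻¹ * (c * (g * g)) * h⁻¹⁻¹) =
          ((g * g))⁻¹ * (c⁻¹ * (h⁻¹ * c)) * ((g * g) * h) := by group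
      rw [e2, ← hcomm h⁻¹, inv_mul_cancel_left]
      group
    rwa [e1] at h4

end

end Pool.Agent.N522.VT
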