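import Pool.Agent.N522.VT.Vanish

/-!
# Tate classes on the products of an arbitrary variety with elliptic curves and abelian surfaces:
# the theorem
-/

set_option autoImplicit false
set_option linter.unusedSectionVars false
set_option linter.unusedVariables false

namespace Pool.Agent.N522.VT

open NumberField Pool.Agent.H204R3.CM Pool.Agent.W547.KB Pool.Agent.W547.LD Pool.Agent.W495.TA Module
  Pool.Agent.W495.TB Pool.Agent.W495.TC Pool.Agent.TH117.F5 Pool.Agent.TH117.BL Pool.Agent.Y137.SF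
  Pool.Agent.R937.CS Pool.Agent.R937.VS
open Pool.Agent.Y137.TV (tens tens_apply lam lam_ne_zero mono_F expandM lam_tau IsIndependent
  IsOddSupersingular)
open scoped TensorProduct

noncomputable section

section mono

variable {p : ℕ} [Fact p.Prime] {ν : PadicAlgCl p ≃+* ℂ}
  {L : Type} [Field L] [NumberField L] [IsCMField L] [IsGalois ℚ L] (j : L →+* ℂ)
  {Ω : Type} [Field Ω] [CharZero Ω] (jO : L →+* Ω)

/-- A product of eigenvalues with the trivial slopes is a power of `q` up to a root of unity. -/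
theorem prod_lam_pow {Y : RedAV p ν} (hY : Big Y.X j) {κ : Type} [Fintype κ] (I : κ → Wt Y.X L)
    (h0 : ∀ σ, ∑ k, tf p ν j (St j (I k)) σ = 0) :
    ∃ n, 0 < n ∧ (∏ k, lam jO (I k)) ^ (2 * n) = ((p : Ω) ^ Y.a) ^ (Fintype.card κ * n) := by
  obtain ⟨n, hn, h1⟩ := match_products j Y Y hY hY I (fun e : Empty => e.elim) (fun σ => by
    rw [h0 σ, Finset.univ_eq_empty, Finset.sum_empty])
  have e0 : ∏ e : Empty, ((fun e : Empty => (e.elim : Wt Y.X L)) e).2
      (Y.π ((fun e : Empty => (e.elim : Wt Y.X L)) e).1) = (1 : L) := by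
    rw [Finset.univ_eq_empty, Finset.prod_empty]
  rw [e0, one_pow, one_mul, Fintype.card_empty, mul_zero, pow_zero, mul_one] at h1
  refine ⟨Y.a * n, Nat.mul_pos Y.pos hn, ?_⟩
  have hB : ∏ k, lam jO (I k) = jO (∏ k, (I k).2 (Y.π (I k).1)) := by
    rw [map_prod]
    rfl
  rw [hB, ← map_pow, ← mul_assoc, h1, map_pow, map_natCast, ← pow_mul]
  congr 1
  ring

variable {M : Type} [AddCommGroup M] [Module Ω M]

/-- The coefficient of a monomial. -/
theorem isGen_of {Y : RedAV p ν} {κ : Type} [Fintype κ] (I : κ → Wt Y.X L) {a s t c d m n r : ℕ}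
    (hst : Y.a * s = a * t) (φ : M →ₗ[Ω] M) (w : M)
    (hw : ((((∏ k, lam jO (I k)) ^ s) • φ ^ t - ((p : Ω) ^ (a * t * c)) • (1 : M →ₗ[Ω] M)) ^ r) w = 0)
    (hn : (∏ k, lam jO (I k)) ^ (2 * n) = ((p : Ω) ^ Y.a) ^ (2 * m * n)) (hc : c = m + d) :
    IsGen (pw φ (t * (2 * n))) ((p : Ω) ^ (a * (t * (2 * n)) * d)) r w := by
  have hpΩ : (p : Ω) ≠ 0 := Nat.cast_ne_zero.2 (Fact.out : p.Prime).ne_zero
  have h3 := gen_pow _ _ r (2 * n) w hw
  rw [smul_pow_comm] at h3
  have e1 : ((∏ k, lam jO (I k)) ^ s) ^ (2 * n) = (p : Ω) ^ (a * (t * (2 * n)) * m) := by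
    rw [← pow_mul, mul_comm s, pow_mul, hn, ← pow_mul, ← pow_mul]
    congr 1
    calc Y.a * (2 * m * n * s) = Y.a * s * (2 * n * m) := by ring
      _ = a * t * (2 * n * m) := by rw [hst]
      _ = _ := by ring
  have e2 : ((p : Ω) ^ (a * t * c)) ^ (2 * n) =
      (p : Ω) ^ (a * (t * (2 * n)) * m) * (p : Ω) ^ (a * (t * (2 * n)) * d) := by
    rw [← pow_mul, ← pow_add, hc]
    congr 1
    ring
  rw [e1, e2] at h3
  exact gen_unsmul _ _ _ (pow_ne_zero _ hpΩ) r w h3

end mono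

variable {p : ℕ} [Fact p.Prime] {ν : PadicAlgCl p ≃+* ℂ} {Ω : Type} [Field Ω] [IsAlgClosed Ω]
    [CharZero Ω] {M : Type} [AddCommGroup M] [Module Ω M] [FiniteDimensional Ω M]

/-- **The theorem.** -/
theorem main (Y : RedAV p ν) (hdim : ∀ i, finrank ℚ (Y.X.factor i).E ≤ 4) (a b : ℕ) (ha : 0 < a)
    (φ : M →ₗ[Ω] M) (hφ : ∀ α, End.HasEigenvalue φ α → IsSeparated Y a b α) (r : ℕ) :
    (∀ (m : ℕ) (g : (TM Ω Y) [⋀^Fin (2 * m)]→ₗ[Ω] M), IsTate a φ r Y g →
      g ∈ Submodule.span Ω {h | IsProductClass Y a b φ r m h}) ∧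
    ((∀ α, End.HasEigenvalue φ α → ¬ IsOddSupersingular ((p : Ω) ^ a) α) →
      ∀ (k : ℕ), Odd k → ∀ g : (TM Ω Y) [⋀^Fin k]→ₗ[Ω] M, IsTate a φ r Y g → g = 0) := by
  classical
  have hne : Nonempty (Y.X.prod (Pool.Agent.W547.KB.single (kp p))).I := ⟨Sum.inr ()⟩
  obtain ⟨L, _, _, _, _, j, hj⟩ := exists_cm (Y.X.prod (Pool.Agent.W547.KB.single (kp p)))
  have hYj : Big Y.X j := fun i ψ => hj (Sum.inl i) ψ
  let jO : L →+* Ω := ((IsAlgClosed.lift : L →ₐ[ℚ] Ω) : L →+* Ω)
  obtain ⟨e, h1, h0⟩ := Pool.Agent.W67.TA.basis p ν Ω L j jO Y hYj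
  have : Module.Finite ℚ Y.X.H1 := Module.Finite.pi
  have : Finite (Wt Y.X L) := Module.Finite.finite_basis e
  let _ : Fintype (Wt Y.X L) := Fintype.ofFinite _
  have hcard : ∀ k : ℕ, ((Fintype.card (Equiv.Perm (Fin k)) : ℕ) : Ω) ≠ 0 := fun k =>
    Nat.cast_ne_zero.2 Fintype.card_ne_zero
  have hpΩ : (p : Ω) ≠ 0 := Nat.cast_ne_zero.2 (Fact.out : p.Prime).ne_zero
  -- the coefficients
  have hcoef : ∀ (k : ℕ) (g : (TM Ω Y) [⋀^Fin k]→ₗ[Ω] M) (s t c : ℕ), 0 < s → 0 < t →
      Y.a * s = a * t → IsGen (frobOn Y φ s t (Fin k)) ((p : Ω) ^ (a * t * c)) r g →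
      ∀ I : Fin k → Wt Y.X L, g (fun k => e (I k)) ≠ 0 →
      ((((∏ k, lam jO (I k)) ^ s) • φ ^ t - ((p : Ω) ^ (a * t * c)) • (1 : M →ₗ[Ω] M)) ^ r)
        (g fun k => e (I k)) = 0 ∧ b + k = 2 * c ∧
      (∀ σ, ∑ k, tf p ν j (St j (I k)) σ = 0) ∧
      ∃ α, End.HasEigenvalue φ α ∧ (∏ k, lam jO (I k)) ^ s * α ^ t = (p : Ω) ^ (a * t * c) := by
    intro k g s t c hs ht hst hg I hI
    have hw := component jO e h1 h0 hg I
    obtain ⟨α, hα, hαq⟩ := exists_eigenvalue φ hI hw
    obtain ⟨h2, h3⟩ := vanish j jO hYj hdim I ha hs ht hst hαq (hφ α hα)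
    rw [Fintype.card_fin] at h2
    exact ⟨hw, h2, h3, α, hα, hαq⟩
  refine ⟨fun m g hg => ?_, fun hodd k hk g hg => ?_⟩
  · obtain ⟨s, t, c, hs, ht, hst, hg⟩ := hg
    have h2 := expandM jO Y e h1 h0 (Fin (2 * m)) g
    have h3 : ((Fintype.card (Equiv.Perm (Fin (2 * m))) : ℕ) : Ω) • g ∈
        Submodule.span Ω {h | IsProductClass Y a b φ r m h} := by
      rw [h2]
      refine Submodule.sum_mem _ fun I _ => ?_
      by_cases hI : g (fun k => e (I k)) = 0
      · rw [hI]
        have h4 : tens (monoO jO I) (0 : M) = 0 := by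
          ext v
          rw [tens_apply, smul_zero]
          rfl
        rw [h4]
        exact Submodule.zero_mem _
      · obtain ⟨hw, hbc, hbal, -⟩ := hcoef _ g s t c hs ht hst hg I hI
        obtain ⟨n, hn, hn2⟩ := prod_lam_pow j jO hYj I hbal
        rw [Fintype.card_fin] at hn2
        have h7 : IsTateClass Ω Y (2 * n) m (monoO jO I) := by
          intro v
          have e1 : 2 * m * n = m * (2 * n) := by ring
          rw [mono_F, hn2, e1]
        have hAlg : AlgS Ω ∅ Y (Fin (2 * m)) (monoO jO I) :=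
          alg_of_half jO ∅ hYj m I hbal (fun k => St j (I k))
            (fun k => isHalf_St (X := Y.X) j (I k))
            (fun k => (index_hs_le j (Y.X.factor (I k).1) (hYj (I k).1) (I k).2).trans
              (hdim (I k).1)) fun k => rfl
        refine Submodule.subset_span ⟨c - m, 2 * n, t * (2 * n), monoO jO I,
          g fun k => e (I k), by omega, by omega, by positivity, h7, hAlg, ?_, fun v => rfl⟩
        exact isGen_of jO I hst φ _ hw hn2 (by omega)
    have h4 := Submodule.smul_mem _ (((Fintype.card (Equiv.Perm (Fin (2 * m))) : ℕ) : Ω))⁻¹ h3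
    rwa [smul_smul, inv_mul_cancel₀ (hcard _), one_smul] at h4
  · obtain ⟨s, t, c, hs, ht, hst, hg⟩ := hg
    have h2 := expandM jO Y e h1 h0 (Fin k) g
    have h3 : ((Fintype.card (Equiv.Perm (Fin k)) : ℕ) : Ω) • g = 0 := by
      rw [h2]
      refine Finset.sum_eq_zero fun I _ => ?_
      by_cases hI : g (fun k => e (I k)) = 0
      · rw [hI]
        ext v
        rw [tens_apply, smul_zero]
        rfl
      · exfalso
        obtain ⟨hw, hbc, hbal, α, hα, hαq⟩ := hcoef _ g s t c hs ht hst hg I hI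
        obtain ⟨n, hn, hn2⟩ := prod_lam_pow j jO hYj I hbal
        rw [Fintype.card_fin] at hn2
        refine hodd α hα ⟨t * n, 2 * c - k, Nat.mul_pos ht hn, ?_, ?_⟩
        · obtain ⟨m, rfl⟩ := hk
          exact ⟨c - m - 1, by push_cast; ring⟩
        · have h7 : ((p : Ω) ^ (a * t * (k * n))) * α ^ (2 * (t * n)) =
              (p : Ω) ^ (a * t * c * (2 * n)) := by
            have h8 := congrArg (fun z => z ^ (2 * n)) hαq
            simp only [mul_pow, ← pow_mul] at h8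
            have e1 : (∏ k, lam jO (I k)) ^ (s * (2 * n)) = (p : Ω) ^ (a * t * (k * n)) := by
              rw [mul_comm s, pow_mul, hn2, ← pow_mul, ← pow_mul]
              congr 1
              calc Y.a * (k * n * s) = Y.a * s * (k * n) := by ring
                _ = a * t * (k * n) := by rw [hst]
            rw [e1] at h8
            rw [← h8]
            congr 1
            rw [show 2 * (t * n) = t * (2 * n) by ring]
          have h8 : α ^ (2 * (t * n)) = (p : Ω) ^ (a * t * c * (2 * n)) /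
              (p : Ω) ^ (a * t * (k * n)) := by
            rw [eq_div_iff (pow_ne_zero _ hpΩ), mul_comm]
            exact h7
          have e2 : ((a : ℤ) * (((t * n : ℕ) : ℤ) * (2 * (c : ℤ) - (k : ℤ)))) =
              ((a * t * c * (2 * n) : ℕ) : ℤ) - ((a * t * (k * n) : ℕ) : ℤ) := by
            push_cast
            ring
          rw [h8, ← zpow_natCast (p : Ω) a, ← zpow_mul, e2, zpow_sub₀ hpΩ, zpow_natCast,
            zpow_natCast]
    exact (smul_eq_zero.1 h3).resolve_left (hcard _)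

end

end Pool.Agent.N522.VT
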