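import Pool.Agent.R937.VS.Final
import Pool.Agent.N522.VT.Defs
import Pool.Agent.N522.VT.Grp

/-!
# Relations between the Frobenius eigenvalues of a variety and of elliptic curves and abelian surfaces
-/

set_option autoImplicit false
set_option linter.unusedSectionVars false
set_option linter.unusedVariables false

namespace Pool.Agent.N522.VT

open NumberField Pool.Agent.H204R3.CM Pool.Agent.W547.KB Pool.Agent.W547.LD Pool.Agent.W495.TA Module
  Pool.Agent.W495.TB Pool.Agent.W495.TC Pool.Agent.TH117.F5 Pool.Agent.TH117.BL Pool.Agent.Y137.SF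
  Pool.Agent.R937.CS Pool.Agent.R937.VS
open Pool.Agent.Y137.TV (tens tens_apply lam lam_ne_zero mono_F expandM lam_tau IsIndependent)
open scoped TensorProduct

noncomputable section

section galois

variable {L : Type} [Field L] [NumberField L] [IsGalois ℚ L]

/-- The Galois group of an element which is fixed by all fourth powers and by all commutators of
squares. -/
theorem gal_small (z : L) (h4 : ∀ g : L ≃ₐ[ℚ] L, (g ^ 4) z = z)
    (h2 : ∀ g h : L ≃ₐ[ℚ] L, ((h * g ^ 2)⁻¹ * (g ^ 2 * h)) z = z) :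
    ∀ g h : (minpoly ℚ z).Gal, g ^ 4 = 1 ∧ g ^ 2 * h = h * g ^ 2 := by
  classical
  have : Fact ((minpoly ℚ z).map (algebraMap ℚ L)).Splits := ⟨Normal.splits inferInstance z⟩
  have hroot : ∀ x : L, x ∈ (minpoly ℚ z).rootSet L → ∃ τ : L ≃ₐ[ℚ] L, τ z = x := by
    intro x hx
    have h1 : Polynomial.aeval x (minpoly ℚ z) = 0 := (Polynomial.mem_rootSet.1 hx).2
    have hz : IsIntegral ℚ z := Algebra.IsIntegral.isIntegral z
    have h3 : minpoly ℚ z = minpoly ℚ x :=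
      minpoly.eq_of_irreducible_of_monic (minpoly.irreducible hz) h1 (minpoly.monic hz)
    exact isConjRoot_iff_exists_algEquiv.1 (show IsConjRoot ℚ x z from h3.symm)
  have key : ∀ σ : L ≃ₐ[ℚ] L, (∀ τ : L ≃ₐ[ℚ] L, σ (τ z) = τ z) →
      Polynomial.Gal.restrict (minpoly ℚ z) L σ = 1 := by
    intro σ hσ
    apply Polynomial.Gal.galActionHom_injective (minpoly ℚ z) L
    rw [map_one]
    ext x
    rw [Polynomial.Gal.galActionHom_restrict]
    obtain ⟨τ, hτ⟩ := hroot x.1 x.2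
    rw [← hτ, hσ τ]
    exact hτ
  have h4' : ∀ g τ : L ≃ₐ[ℚ] L, (g ^ 4) (τ z) = τ z := by
    intro g τ
    have h1 := h4 (τ⁻¹ * g * τ)
    have h3 : g ^ 4 * τ = τ * (τ⁻¹ * g * τ) ^ 4 := by
      have h5 : τ⁻¹ * g * τ = τ⁻¹ * g * τ⁻¹⁻¹ := by rw [inv_inv]
      rw [h5, conj_pow]
      group
    calc (g ^ 4) (τ z) = (g ^ 4 * τ) z := rfl
      _ = (τ * (τ⁻¹ * g * τ) ^ 4) z := by rw [h3]
      _ = τ (((τ⁻¹ * g * τ) ^ 4) z) := rfl
      _ = τ z := by rw [h1]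
  have h2' : ∀ g h τ : L ≃ₐ[ℚ] L, ((h * g ^ 2)⁻¹ * (g ^ 2 * h)) (τ z) = τ z := by
    intro g h τ
    have h1 := h2 (τ⁻¹ * g * τ⁻¹⁻¹) (τ⁻¹ * h * τ⁻¹⁻¹)
    have h3 : (h * g ^ 2)⁻¹ * (g ^ 2 * h) * τ = τ * ((τ⁻¹ * h * τ⁻¹⁻¹ * (τ⁻¹ * g * τ⁻¹⁻¹) ^ 2)⁻¹ *
        ((τ⁻¹ * g * τ⁻¹⁻¹) ^ 2 * (τ⁻¹ * h * τ⁻¹⁻¹))) := by
      rw [conj_pow]
      generalize g ^ 2 = u
      group
    calc ((h * g ^ 2)⁻¹ * (g ^ 2 * h)) (τ z) = ((h * g ^ 2)⁻¹ * (g ^ 2 * h) * τ) z := rfl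
      _ = τ (((τ⁻¹ * h * τ⁻¹⁻¹ * (τ⁻¹ * g * τ⁻¹⁻¹) ^ 2)⁻¹ *
        ((τ⁻¹ * g * τ⁻¹⁻¹) ^ 2 * (τ⁻¹ * h * τ⁻¹⁻¹))) z) := by rw [h3]; rfl
      _ = τ z := by rw [h1]
  intro g h
  obtain ⟨g', rfl⟩ := Polynomial.Gal.restrict_surjective (minpoly ℚ z) L g
  obtain ⟨h', rfl⟩ := Polynomial.Gal.restrict_surjective (minpoly ℚ z) L h
  refine ⟨?_, ?_⟩
  · rw [← map_pow]
    exact key _ fun τ => h4' g' τ
  · have h1 := key _ fun τ => h2' g' h' τ
    rw [map_mul, map_inv, map_mul, map_mul, map_pow] at h1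
    exact (inv_mul_eq_one.1 h1).symm

end galois

section slopes

variable {p : ℕ} [Fact p.Prime] {ν : PadicAlgCl p ≃+* ℂ}
  {L : Type} [Field L] [NumberField L] [IsCMField L] [IsGalois ℚ L] (j : L →+* ℂ)

/-- The relation between the slopes. -/
theorem slopes_rel {Ω : Type} [Field Ω] [CharZero Ω] (jO : L →+* Ω) {Y : RedAV p ν}
    (hY : Big Y.X j) {κ : Type} [Fintype κ] (I : κ → Wt Y.X L) {a b s t c : ℕ} (ha : 0 < a)
    (ht : 0 < t) (hst : Y.a * s = a * t) {K : Type} [Field K] [NumberField K] (ι : K →+* Ω) (x : K)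
    (hα : (∏ k, lam jO (I k)) ^ s * (ι x) ^ t = (p : Ω) ^ (a * t * c))
    (hweil : ∀ ψ : K →+* ℂ, ‖ψ x‖ ^ 2 = (p : ℝ) ^ (a * b)) :
    ∃ y : L, y * (∏ k, (I k).2 (Y.π (I k).1)) ^ s = (p : L) ^ (a * t * c) ∧
      (∏ k, (I k).2 (Y.π (I k).1)) ≠ 0 ∧
      jO y = ι (x ^ t) ∧ minpoly ℚ (x ^ t) = minpoly ℚ y ∧ b + Fintype.card κ = 2 * c ∧
      ∀ σ : L ≃ₐ[ℚ] L, 2 * (Real.log ‖ν.symm (j (σ y))‖ / (t * (a * Real.log ‖(p : PadicAlgCl p)‖)))
        - b = -(((∑ k, tf p ν j (St j (I k)) σ : ℤ) : ℝ) / (nD (Dec p ν j) : ℝ)) := by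
  classical
  have hp : p.Prime := Fact.out
  have hp0 : (p : L) ≠ 0 := Nat.cast_ne_zero.2 hp.ne_zero
  let β : L := ∏ k, (I k).2 (Y.π (I k).1)
  have hlam : ∏ k, lam jO (I k) = jO β := by
    rw [map_prod]
    rfl
  have hπ0 : ∀ k, (I k).2 (Y.π (I k).1) ≠ 0 := fun k h => by
    apply lam_ne_zero jO (I k)
    unfold lam
    rw [h, map_zero]
  have hβ0 : β ≠ 0 := Finset.prod_ne_zero_iff.2 fun k _ => hπ0 k
  let y : L := (p : L) ^ (a * t * c) / β ^ s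
  have hyβ : y * β ^ s = (p : L) ^ (a * t * c) := div_mul_cancel₀ _ (pow_ne_zero _ hβ0)
  have hy : jO y = ι (x ^ t) := by
    rw [map_div₀, map_pow, map_pow, map_natCast, ← hlam, map_pow, ← hα,
      mul_div_cancel_left₀]
    refine pow_ne_zero _ ?_
    rw [hlam]
    exact (map_ne_zero jO).2 hβ0
  have hmin : minpoly ℚ (x ^ t) = minpoly ℚ y := by
    have h1 := minpoly.algHom_eq (RingHom.equivRatAlgHom L Ω jO) jO.injective y
    have h2 := minpoly.algHom_eq (RingHom.equivRatAlgHom K Ω ι) ι.injective (x ^ t)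
    rw [← h1, ← h2]
    exact congrArg (minpoly ℚ) hy.symm
  have hpr : (1 : ℝ) < p := by exact_mod_cast hp.one_lt
  have hcard : b + Fintype.card κ = 2 * c := by
    have h1 : j y ∈ Set.range fun ψ : K →+* ℂ => ψ (x ^ t) := by
      rw [Embeddings.range_eval_eq_rootSet_minpoly K ℂ (x ^ t), hmin,
        ← Embeddings.range_eval_eq_rootSet_minpoly L ℂ y]
      exact ⟨j, rfl⟩
    obtain ⟨ψ, hψ⟩ := h1
    have h2 : ‖ψ (x ^ t)‖ ^ 2 = (p : ℝ) ^ (a * b * t) := by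
      rw [map_pow, norm_pow, ← pow_mul, mul_comm t 2, pow_mul, hweil, ← pow_mul]
    have h3 : ‖j β‖ ^ 2 = (p : ℝ) ^ (Y.a * Fintype.card κ) := by
      have hw : ∀ k, ‖j ((I k).2 (Y.π (I k).1))‖ ^ 2 = (p : ℝ) ^ Y.a := fun k =>
        (Y.frob (I k).1).weil (j.comp (I k).2)
      rw [map_prod, norm_prod, ← Finset.prod_pow, Finset.prod_congr rfl fun k _ => hw k,
        Finset.prod_const, Finset.card_univ, ← pow_mul]
    have h4 : ‖j y‖ ^ 2 * (p : ℝ) ^ (Y.a * Fintype.card κ * s) = (p : ℝ) ^ (2 * (a * t * c)) := by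
      have h6 := congrArg (fun z => ‖j z‖ ^ 2) hyβ
      simp only [map_mul, map_pow, map_natCast, norm_mul, norm_pow, Complex.norm_natCast] at h6
      rw [mul_pow, ← pow_mul, mul_comm s 2, pow_mul, h3, ← pow_mul, ← pow_mul] at h6
      rw [h6, mul_comm (a * t * c) 2]
    have h5 : ψ (x ^ t) = j y := hψ
    rw [← h5, h2, ← pow_add] at h4
    have h6 := pow_right_injective₀ (by positivity : (0 : ℝ) < p) hpr.ne' h4
    have h7 : Y.a * Fintype.card κ * s = a * t * Fintype.card κ := by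
      rw [mul_right_comm, hst]
    rw [h7] at h6
    have h8 : a * t * (b + Fintype.card κ) = a * t * (2 * c) := by
      calc a * t * (b + Fintype.card κ) = a * b * t + a * t * Fintype.card κ := by ring
        _ = 2 * (a * t * c) := h6
        _ = a * t * (2 * c) := by ring
    exact Nat.eq_of_mul_eq_mul_left (Nat.mul_pos ha ht) h8
  refine ⟨y, hyβ, hβ0, hy, hmin, hcard, fun σ => ?_⟩
  set lp : ℝ := Real.log ‖(p : PadicAlgCl p)‖ with hlp
  have hlp0 : lp ≠ 0 := (Real.log_neg norm_p_pos norm_p_lt).ne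
  have ha0 : (a : ℝ) ≠ 0 := by exact_mod_cast ha.ne'
  have ht0 : (t : ℝ) ≠ 0 := by exact_mod_cast ht.ne'
  have hnD : (0 : ℝ) < (nD (Dec p ν j) : ℝ) := by exact_mod_cast nD_pos (Dec p ν j)
  have h1 : Real.log ‖ν.symm (j (σ y))‖ = (a * t * c) * lp -
      s * Real.log ‖ν.symm (j (σ (∏ k, (I k).2 (Y.π (I k).1))))‖ := by
    have h2 : ‖ν.symm (j (σ y))‖ = ‖(p : PadicAlgCl p)‖ ^ (a * t * c) /
        ‖ν.symm (j (σ (∏ k, (I k).2 (Y.π (I k).1))))‖ ^ s := by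
      change ‖ν.symm (j (σ ((p : L) ^ (a * t * c) / (∏ k, (I k).2 (Y.π (I k).1)) ^ s)))‖ = _
      rw [map_div₀, map_div₀, map_div₀, map_pow, map_pow, map_pow, map_pow, map_pow, map_pow,
        map_natCast, map_natCast, map_natCast, norm_div, norm_pow, norm_pow]
    have hne : ‖ν.symm (j (σ (∏ k, (I k).2 (Y.π (I k).1))))‖ ≠ 0 := by
      rw [norm_ne_zero_iff]
      exact (map_ne_zero ν.symm).2 ((map_ne_zero j).2 ((map_ne_zero σ).2 hβ0))
    rw [h2, Real.log_div (pow_ne_zero _ norm_p_pos.ne') (pow_ne_zero _ hne), Real.log_pow,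
      Real.log_pow]
    push_cast
    ring
  have h2 := log_prod j Y hY I σ
  have hst' : (Y.a : ℝ) * s = a * t := by exact_mod_cast hst
  have hc' : (b : ℝ) + Fintype.card κ = 2 * c := by exact_mod_cast hcard
  set T : ℝ := ((∑ k, tf p ν j (St j (I k)) σ : ℤ) : ℝ) with hT
  have h4 : Real.log ‖ν.symm (j (σ y))‖ = (a * t) * lp *
      (c - (Fintype.card κ / 2 + T / (2 * (nD (Dec p ν j) : ℝ)))) := by
    rw [h1, h2]
    have h5 : s * (Y.a * (Fintype.card κ / 2 + T / (2 * (nD (Dec p ν j) : ℝ))) * lp) =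
        (Y.a * s) * lp * (Fintype.card κ / 2 + T / (2 * (nD (Dec p ν j) : ℝ))) := by ring
    rw [h5, hst']
    ring
  rw [h4]
  have h5 : (b : ℝ) = 2 * c - Fintype.card κ := by linarith
  rw [h5]
  field_simp
  ring

/-- The conjugates of elements of different fields with the same minimal polynomial. -/
theorem exists_sigma {K : Type} [Field K] [NumberField K] (x : K) (y : L)
    (hmin : minpoly ℚ x = minpoly ℚ y) (ψ : K →+* ℂ) : ∃ σ : L ≃ₐ[ℚ] L, ψ x = j (σ y) := by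
  have h1 : ψ x ∈ Set.range fun ψ : L →+* ℂ => ψ y := by
    rw [Embeddings.range_eval_eq_rootSet_minpoly L ℂ y, ← hmin,
      ← Embeddings.range_eval_eq_rootSet_minpoly K ℂ x]
    exact ⟨ψ, rfl⟩
  obtain ⟨ψ', hψ'⟩ := h1
  have hinj : Function.Injective fun σ : L ≃ₐ[ℚ] L => j.comp (σ : L →+* L) := by
    intro σ τ hστ
    ext y
    have := RingHom.congr_fun hστ y
    exact j.injective this
  have hbij : Function.Bijective fun σ : L ≃ₐ[ℚ] L => j.comp (σ : L →+* L) := by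
    rw [Fintype.bijective_iff_injective_and_card]
    refine ⟨hinj, ?_⟩
    rw [NumberField.Embeddings.card L ℂ, ← Nat.card_eq_fintype_card, IsGalois.card_aut_eq_finrank]
  obtain ⟨σ, hσ⟩ := hbij.2 ψ'
  refine ⟨σ, ?_⟩
  have h2 : ψ' y = ψ x := hψ'
  rw [← h2, ← hσ]
  rfl

theorem exists_psi {K : Type} [Field K] [NumberField K] (x : K) (y : L)
    (hmin : minpoly ℚ x = minpoly ℚ y) (σ : L ≃ₐ[ℚ] L) : ∃ ψ : K →+* ℂ, ψ x = j (σ y) := by
  have h1 : j (σ y) ∈ Set.range fun ψ : K →+* ℂ => ψ x := by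
    rw [Embeddings.range_eval_eq_rootSet_minpoly K ℂ x, hmin,
      ← Embeddings.range_eval_eq_rootSet_minpoly L ℂ y]
    exact ⟨j.comp (σ : L →+* L), rfl⟩
  obtain ⟨ψ, hψ⟩ := h1
  exact ⟨ψ, hψ⟩

end slopes

end

end Pool.Agent.N522.VT
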