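import Pool.Agent.N522.VT.Rel

/-!
# The relations with separated eigenvalues are trivial
-/

set_option autoImplicit false
set_option linter.unusedSectionVars false
set_option linter.unusedVariables false

namespace Pool.Agent.N522.VT

open NumberField Pool.Agent.H204R3.CM Pool.Agent.W547.KB Pool.Agent.W547.LD Pool.Agent.W495.TA Module
  Pool.Agent.W495.TB Pool.Agent.W495.TC Pool.Agent.TH117.F5 Pool.Agent.TH117.BL Pool.Agent.Y137.SF
  Pool.Agent.R937.CS Pool.Agent.R937.VS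
open Pool.Agent.Y137.TV (tens tens_apply lam lam_ne_zero mono_F expandM lam_tau IsIndependent)
open scoped TensorProduct

noncomputable section

variable {p : ℕ} [Fact p.Prime] {ν : PadicAlgCl p ≃+* ℂ}
  {L : Type} [Field L] [NumberField L] [IsCMField L] [IsGalois ℚ L] (j : L →+* ℂ)

section sums

variable {Y : RedAV p ν} (hY : Big Y.X j) (hdim : ∀ i, finrank ℚ (Y.X.factor i).E ≤ 4)
  {κ : Type} [Fintype κ] (I : κ → Wt Y.X L)

include hY hdim

theorem idx_le (k : κ) : (rst (sg (St j (I k)))).index ≤ 4 := by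
  rw [rst_sg]
  exact (index_hs_le j (Y.X.factor (I k).1) (hY (I k).1) (I k).2).trans (hdim (I k).1)

theorem sum_tf_dvd (σ : L ≃ₐ[ℚ] L) :
    nD (Dec p ν j) ∣ ∑ k, tf p ν j (St j (I k)) σ := by
  refine Finset.dvd_sum fun k _ => ?_
  rw [tf_eq_av]
  rcases av_values (Dec p ν j) (cc L) (fun g => cc_comm j g)
    (isSign_sg (isHalf_St (X := Y.X) j (I k))) (idx_le j hY hdim I k) σ with h | h | h <;> rw [h]
  · exact dvd_zero _
  · exact (dvd_neg).2 dvd_rfl

/-- The bound for the values of a sum in terms of the mean value of its squares. -/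
theorem abs_sum_le (σ : L ≃ₐ[ℚ] L) :
    |∑ k, tf p ν j (St j (I k)) σ| * nD (Dec p ν j) * Fintype.card (L ≃ₐ[ℚ] L) ≤
      2 * ∑ g, (∑ k, tf p ν j (St j (I k)) g) ^ 2 := by
  classical
  obtain ⟨ι, _, f', hf', hidx', hsum', hbound'⟩ := exists_short (Dec p ν j) (cc L)
    (fun k => sg (St j (I k))) (fun g => cc_comm j g) cc_cc
    (fun k => isSign_sg (isHalf_St (X := Y.X) j (I k))) (fun k => idx_le j hY hdim I k)
    Finset.univ
  have hsum : ∀ g, ∑ q, av (Dec p ν j) (f' q) g = ∑ k, tf p ν j (St j (I k)) g := by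
    intro g
    rw [hsum' g]
    exact Finset.sum_congr rfl fun k _ => by rw [tf_eq_av]
  have h1 : (Fintype.card ι : ℤ) * (nD (Dec p ν j) ^ 2 * Fintype.card (L ≃ₐ[ℚ] L)) ≤
      2 * ∑ g, (∑ k, tf p ν j (St j (I k)) g) ^ 2 := by
    refine hbound'.trans (le_of_eq ?_)
    congr 1
  have h2 : |∑ k, tf p ν j (St j (I k)) σ| ≤ Fintype.card ι * nD (Dec p ν j) := by
    rw [← hsum σ]
    refine (Finset.abs_sum_le_sum_abs _ _).trans ?_
    calc ∑ q, |av (Dec p ν j) (f' q) σ| ≤ ∑ _q : ι, nD (Dec p ν j) :=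
          Finset.sum_le_sum fun q _ => abs_av_le (Dec p ν j) (cc L) (hf' q) σ
      _ = Fintype.card ι * nD (Dec p ν j) := by
          rw [Finset.sum_const, Finset.card_univ, nsmul_eq_mul]
  have h3 : (0 : ℤ) < nD (Dec p ν j) := nD_pos _
  have h4 : (0 : ℤ) ≤ Fintype.card (L ≃ₐ[ℚ] L) := by positivity
  calc |∑ k, tf p ν j (St j (I k)) σ| * nD (Dec p ν j) * Fintype.card (L ≃ₐ[ℚ] L)
      ≤ (Fintype.card ι * nD (Dec p ν j)) * nD (Dec p ν j) * Fintype.card (L ≃ₐ[ℚ] L) := by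
        gcongr
    _ = Fintype.card ι * (nD (Dec p ν j) ^ 2 * Fintype.card (L ≃ₐ[ℚ] L)) := by ring
    _ ≤ _ := h1

/-- Invariance under the elements of the cores of all stabilizers. -/
theorem sum_tf_right {h : L ≃ₐ[ℚ] L} (hh : ∀ k, h ∈ (rst (sg (St j (I k)))).normalCore)
    (σ : L ≃ₐ[ℚ] L) :
    ∑ k, tf p ν j (St j (I k)) (σ * h) = ∑ k, tf p ν j (St j (I k)) σ := by
  refine Finset.sum_congr rfl fun k _ => ?_
  rw [tf_eq_av]
  exact av_right (Dec p ν j) (Subgroup.normalCore_le _ (hh k)) σ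

end sums

/-- If the sum is invariant under `h` then some power of the product of the eigenvalues is fixed
by `h`. -/
theorem fixed_pow {Y : RedAV p ν} (hY : Big Y.X j) {κ : Type} [Fintype κ] (I : κ → Wt Y.X L)
    (h : L ≃ₐ[ℚ] L)
    (hh : ∀ σ, ∑ k, tf p ν j (St j (I k)) (σ * h) = ∑ k, tf p ν j (St j (I k)) σ) {s e : ℕ} {y : L}
    (hy : y * (∏ k, (I k).2 (Y.π (I k).1)) ^ s = (p : L) ^ e) :
    ∃ n, 0 < n ∧ h (y ^ n) = y ^ n := by
  obtain ⟨n, hn, h1⟩ := match_products j Y Y hY hY I (fun k => h • I k) (fun σ => by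
    rw [Finset.sum_congr rfl fun k _ => tf_smul_wt j Y.X (I k) h σ]
    exact (hh σ).symm)
  have hp0 : (p : L) ≠ 0 := Nat.cast_ne_zero.2 (Fact.out : p.Prime).ne_zero
  set B : L := ∏ k, (I k).2 (Y.π (I k).1) with hB
  have h2 : ∏ k, (h • I k).2 (Y.π (h • I k).1) = h B := by
    rw [hB, map_prod]
    rfl
  rw [h2] at h1
  have h3 : B ^ (2 * Y.a * n) = (h B) ^ (2 * Y.a * n) :=
    mul_right_cancel₀ (pow_ne_zero _ hp0) h1
  have hm : 0 < 2 * Y.a * n := by
    have := Y.pos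
    positivity
  generalize 2 * Y.a * n = m at h3 hm
  refine ⟨m, hm, ?_⟩
  have h4 : h y * h B ^ s = (p : L) ^ e := by
    rw [← map_pow, ← map_mul, hy, map_pow, map_natCast]
  have hB0 : B ^ s ≠ 0 := fun h0 => by
    rw [h0, mul_zero] at hy
    exact pow_ne_zero _ hp0 hy.symm
  rw [map_pow]
  have h5 : h y ^ m * (B ^ s) ^ m = y ^ m * (B ^ s) ^ m := by
    rw [← mul_pow y, hy, ← h4, mul_pow, ← pow_mul B, ← pow_mul (h B), mul_comm s, pow_mul, pow_mul,
      h3]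
  exact mul_right_cancel₀ (pow_ne_zero _ hB0) h5

/-- A common power. -/
theorem fixed_all {S : Set (L ≃ₐ[ℚ] L)} {y : L} (h : ∀ g ∈ S, ∃ n, 0 < n ∧ g (y ^ n) = y ^ n) :
    ∃ n, 0 < n ∧ ∀ g ∈ S, g (y ^ n) = y ^ n := by
  classical
  have h1 : ∀ g : L ≃ₐ[ℚ] L, ∃ n, 0 < n ∧ (g ∈ S → g (y ^ n) = y ^ n) := by
    intro g
    by_cases hg : g ∈ S
    · obtain ⟨n, hn, h2⟩ := h g hg
      exact ⟨n, hn, fun _ => h2⟩
    · exact ⟨1, one_pos, fun h => absurd h hg⟩
  choose n hn hn2 using h1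
  refine ⟨∏ g, n g, Finset.prod_pos fun g _ => hn g, fun g hg => ?_⟩
  have h3 : ∏ g, n g = n g * ∏ g' ∈ Finset.univ.erase g, n g' :=
    (Finset.mul_prod_erase _ _ (Finset.mem_univ g)).symm
  rw [h3, pow_mul, map_pow, hn2 g hg]

/-- **The relations with a separated eigenvalue.** -/
theorem vanish {Ω : Type} [Field Ω] [CharZero Ω] (jO : L →+* Ω) {Y : RedAV p ν} (hY : Big Y.X j)
    (hdim : ∀ i, finrank ℚ (Y.X.factor i).E ≤ 4) {κ : Type} [Fintype κ]
    (I : κ → Wt Y.X L) {a b s t c : ℕ} (ha : 0 < a) (hs : 0 < s) (ht : 0 < t)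
    (hst : Y.a * s = a * t) {α : Ω}
    (hα : (∏ k, lam jO (I k)) ^ s * α ^ t = (p : Ω) ^ (a * t * c)) (hsep : IsSeparated Y a b α) :
    b + Fintype.card κ = 2 * c ∧ ∀ σ, ∑ k, tf p ν j (St j (I k)) σ = 0 := by
  classical
  obtain ⟨K, _, _, ι, x, rfl, hweil, hcases⟩ := hsep
  obtain ⟨y, hyβ, hβ0, hy, hmin, hcard, hsl⟩ := slopes_rel j jO hY I ha ht hst ι x hα hweil
  refine ⟨hcard, ?_⟩
  have hp : p.Prime := Fact.out
  set lp : ℝ := Real.log ‖(p : PadicAlgCl p)‖ with hlp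
  have hlp0 : lp ≠ 0 := (Real.log_neg norm_p_pos norm_p_lt).ne
  have ha0 : (a : ℝ) ≠ 0 := by exact_mod_cast ha.ne'
  have ht0 : (t : ℝ) ≠ 0 := by exact_mod_cast ht.ne'
  have hnD : (0 : ℝ) < (nD (Dec p ν j) : ℝ) := by exact_mod_cast nD_pos (Dec p ν j)
  have hlq : Real.log ‖(p : PadicAlgCl p) ^ a‖ = a * lp := by
    rw [norm_pow, Real.log_pow]
  have hψ : ∀ ψ : K →+* ℂ, 2 * slope p ν a (ψ x) =
      2 * (Real.log ‖ν.symm (ψ (x ^ t))‖ / (t * (a * lp))) := by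
    intro ψ
    unfold Pool.Agent.R937.VS.slope
    rw [hlq, map_pow, map_pow, norm_pow, Real.log_pow]
    congr 1
    field_simp
  have V1 : ∀ ψ : K →+* ℂ, ∃ σ : L ≃ₐ[ℚ] L, 2 * slope p ν a (ψ x) - b =
      -(((∑ k, tf p ν j (St j (I k)) σ : ℤ) : ℝ) / (nD (Dec p ν j) : ℝ)) := by
    intro ψ
    obtain ⟨σ, hσ⟩ := exists_sigma j (x ^ t) y hmin ψ
    refine ⟨σ, ?_⟩
    rw [hψ, hσ]
    exact hsl σ
  have V2 : ∀ σ : L ≃ₐ[ℚ] L, ∃ ψ : K →+* ℂ, 2 * slope p ν a (ψ x) - b =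
      -(((∑ k, tf p ν j (St j (I k)) σ : ℤ) : ℝ) / (nD (Dec p ν j) : ℝ)) := by
    intro σ
    obtain ⟨ψ, hσ⟩ := exists_psi j (x ^ t) y hmin σ
    refine ⟨ψ, ?_⟩
    rw [hψ, hσ]
    exact hsl σ
  rcases hcases with h0 | hA | hB | hC | hE
  · -- all slopes are equal
    intro σ
    obtain ⟨ψ, hψσ⟩ := V2 σ
    rw [h0 ψ, sub_self] at hψσ
    have h1 : ((∑ k, tf p ν j (St j (I k)) σ : ℤ) : ℝ) / (nD (Dec p ν j) : ℝ) = 0 := by linarith
    have h2 : ((∑ k, tf p ν j (St j (I k)) σ : ℤ) : ℝ) = 0 := by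
      rcases div_eq_zero_iff.1 h1 with h | h
      · exact h
      · exact absurd h hnD.ne'
    exact_mod_cast h2
  · -- some slope is not a half integer
    exfalso
    obtain ⟨ψ, hψn⟩ := hA
    obtain ⟨σ, hσ⟩ := V1 ψ
    obtain ⟨z, hz⟩ := sum_tf_dvd j hY hdim I σ
    refine hψn (b - z) ?_
    rw [hz] at hσ
    push_cast at hσ ⊢
    rw [mul_div_cancel_left₀ _ hnD.ne'] at hσ
    linarith
  · -- the mean value of the squares
    exfalso
    obtain ⟨ψ, hψB⟩ := hB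
    obtain ⟨σ, hσ⟩ := V1 ψ
    let h : ℂ → ℝ := fun z => (2 * (Real.log ‖ν.symm z‖ / (t * (a * lp))) - b) ^ 2
    have hK : ∀ ψ : K →+* ℂ, h (ψ (x ^ t)) = (2 * slope p ν a (ψ x) - b) ^ 2 := by
      intro ψ
      rw [hψ]
    have hL : ∀ σ : L ≃ₐ[ℚ] L, h (j (σ y)) =
        ((∑ k, tf p ν j (St j (I k)) σ : ℤ) : ℝ) ^ 2 / (nD (Dec p ν j) : ℝ) ^ 2 := by
      intro σ
      change (2 * (Real.log ‖ν.symm (j (σ y))‖ / (t * (a * lp))) - b) ^ 2 = _
      rw [hsl σ, neg_sq, div_pow]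
    have hmean' := mean_eq (x ^ t) y hmin h
    rw [sum_gal j y h, Finset.sum_congr rfl fun ψ _ => hK ψ, Finset.sum_congr rfl fun σ _ => hL σ,
      ← Finset.sum_div] at hmean'
    have hG : (finrank ℚ L : ℝ) = Fintype.card (L ≃ₐ[ℚ] L) := by
      rw [← IsGalois.card_aut_eq_finrank, Nat.card_eq_fintype_card]
    have hKpos : (0 : ℝ) < finrank ℚ K := by exact_mod_cast finrank_pos
    have hLpos : (0 : ℝ) < finrank ℚ L := by exact_mod_cast finrank_pos
    have h5 : (|∑ k, tf p ν j (St j (I k)) σ| : ℝ) * nD (Dec p ν j) * finrank ℚ L ≤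
        2 * ∑ g, ((∑ k, tf p ν j (St j (I k)) g : ℤ) : ℝ) ^ 2 := by
      rw [hG]
      have := abs_sum_le j hY hdim I σ
      exact_mod_cast this
    rw [hσ, abs_neg, abs_div, abs_of_pos hnD] at hψB
    set S2 : ℝ := ∑ g, ((∑ k, tf p ν j (St j (I k)) g : ℤ) : ℝ) ^ 2 with hS2
    set T : ℝ := |((∑ k, tf p ν j (St j (I k)) σ : ℤ) : ℝ)| with hT
    have h5' : T * nD (Dec p ν j) * finrank ℚ L ≤ 2 * S2 := by
      have e1 : T = (|∑ k, tf p ν j (St j (I k)) σ| : ℝ) := by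
        rw [hT]
        push_cast
        rfl
      rw [e1]
      exact h5
    have h6 := mul_lt_mul_of_pos_right hψB hLpos
    rw [mul_assoc, hmean'] at h6
    have h7 : 2 * (S2 / (nD (Dec p ν j) : ℝ) ^ 2) < T / nD (Dec p ν j) * finrank ℚ L := by
      have h8 : 2 * (S2 / (nD (Dec p ν j) : ℝ) ^ 2 * finrank ℚ K) <
          T / nD (Dec p ν j) * finrank ℚ L * finrank ℚ K := by
        calc _ < T / nD (Dec p ν j) * finrank ℚ K * finrank ℚ L := h6
          _ = _ := by ring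
      have h9 : 2 * (S2 / (nD (Dec p ν j) : ℝ) ^ 2) * finrank ℚ K <
          T / nD (Dec p ν j) * finrank ℚ L * finrank ℚ K := by linarith
      exact lt_of_mul_lt_mul_right h9 hKpos.le
    have h8 : 2 * (S2 / (nD (Dec p ν j) : ℝ) ^ 2) * (nD (Dec p ν j) : ℝ) ^ 2 <
        T / nD (Dec p ν j) * finrank ℚ L * (nD (Dec p ν j) : ℝ) ^ 2 :=
      mul_lt_mul_of_pos_right h7 (by positivity)
    have e1 : 2 * (S2 / (nD (Dec p ν j) : ℝ) ^ 2) * (nD (Dec p ν j) : ℝ) ^ 2 = 2 * S2 := by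
      field_simp
    have e2 : T / nD (Dec p ν j) * finrank ℚ L * (nD (Dec p ν j) : ℝ) ^ 2 =
        T * nD (Dec p ν j) * finrank ℚ L := by
      field_simp
    rw [e1, e2] at h8
    linarith
  · -- the Galois group
    exfalso
    let S : Set (L ≃ₐ[ℚ] L) := {g | ∀ k, g ∈ (rst (sg (St j (I k)))).normalCore}
    obtain ⟨n, hn, hfix⟩ := fixed_all (S := S) (y := y) fun g hg =>
      fixed_pow j hY I g (fun σ => sum_tf_right j hY hdim I hg σ) hyβ
    have hcore : ∀ k, IsSign (cc L) (sg (St j (I k))) := fun k =>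
      isSign_sg (isHalf_St (X := Y.X) j (I k))
    obtain ⟨g, h, hgh⟩ := hC (t * n) (Nat.mul_pos ht hn)
    have h1 : minpoly ℚ (x ^ (t * n)) = minpoly ℚ (y ^ n) := by
      have h1 := minpoly.algHom_eq (RingHom.equivRatAlgHom L Ω jO) jO.injective (y ^ n)
      have h2 := minpoly.algHom_eq (RingHom.equivRatAlgHom K Ω ι) ι.injective (x ^ (t * n))
      rw [← h1, ← h2]
      refine congrArg (minpoly ℚ) ?_
      change ι (x ^ (t * n)) = jO (y ^ n)
      rw [map_pow jO, hy, ← map_pow, ← pow_mul]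
    have h2 := gal_small (y ^ n) (fun g => hfix _ fun k =>
      pow_four_mem (cc L) (fun g => cc_comm j g) cc_cc _ (hcore k) (idx_le j hY hdim I k) g)
      (fun g h => hfix _ fun k =>
      sq_comm_mem (cc L) (fun g => cc_comm j g) cc_cc _ (hcore k) (idx_le j hY hdim I k) g h)
    rw [← h1] at h2
    obtain ⟨h3, h4⟩ := h2 g h
    rcases hgh with h5 | h5
    · exact h5 h3
    · exact h5 h4
  · -- independence
    obtain ⟨τ, N, hN, hτα, hτ⟩ := hE
    have hqp : ((p : Ω) ^ Y.a) ≠ 0 := pow_ne_zero _ (Nat.cast_ne_zero.2 hp.ne_zero)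
    set B : Ω := ∏ k, lam jO (I k) with hB
    have hB0 : B ≠ 0 := Finset.prod_ne_zero_iff.2 fun k _ => lam_ne_zero jO (I k)
    have hBB : B * τ B = ((p : Ω) ^ Y.a) ^ Fintype.card κ := by
      rw [hB, map_prod, ← Finset.prod_mul_distrib]
      rw [Finset.prod_congr rfl fun k _ => lam_tau jO hτ (I k), Finset.prod_const, Finset.card_univ]
    have h1 : τ B ^ s * τ (ι x) ^ t = (p : Ω) ^ (a * t * c) := by
      rw [← map_pow, ← map_pow, ← map_mul, hα, map_pow, map_natCast]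
    have hα0 : ι x ^ t ≠ 0 := fun h0 => by
      rw [h0, mul_zero] at hα
      exact pow_ne_zero _ (Nat.cast_ne_zero.2 hp.ne_zero) hα.symm
    have h2 : B ^ (s * N) = τ B ^ (s * N) := by
      have h3 : (B ^ s) ^ N * (ι x ^ t) ^ N = (τ B ^ s) ^ N * (ι x ^ t) ^ N := by
        have h4 : (τ (ι x) ^ t) ^ N = (ι x ^ t) ^ N := by
          rw [← pow_mul, mul_comm t N, pow_mul, hτα, ← pow_mul, mul_comm N t, pow_mul]
        rw [← mul_pow, hα, ← h1, mul_pow, h4]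
      have h5 := mul_right_cancel₀ (pow_ne_zero _ hα0) h3
      rwa [← pow_mul, ← pow_mul] at h5
    have h3 : B ^ (2 * (s * N)) = ((p : Ω) ^ Y.a) ^ (Fintype.card κ * (s * N)) := by
      rw [two_mul, pow_add]
      nth_rw 2 [h2]
      rw [← mul_pow, hBB, ← pow_mul]
    have hBL : B = jO (∏ k, (I k).2 (Y.π (I k).1)) := by
      rw [hB, map_prod]
      rfl
    have h4 : (∏ k, (I k).2 (Y.π (I k).1)) ^ (2 * (s * N)) =
        ((p : L) ^ Y.a) ^ (Fintype.card κ * (s * N)) := by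
      apply jO.injective
      rw [map_pow, ← hBL, h3, map_pow, map_pow, map_natCast]
    intro σ
    have h5 := congrArg (fun z => Real.log ‖ν.symm (j (σ z))‖) h4
    simp only [map_pow, map_natCast, norm_pow, Real.log_pow] at h5
    rw [log_prod j Y hY I σ, ← hlp] at h5
    have hsN : (0 : ℝ) < ((s * N : ℕ) : ℝ) := by exact_mod_cast Nat.mul_pos hs hN
    have hYa : (0 : ℝ) < (Y.a : ℝ) := by exact_mod_cast Y.pos
    set T : ℝ := ((∑ k, tf p ν j (St j (I k)) σ : ℤ) : ℝ) with hT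
    have h6 : T = 0 := by
      push_cast at h5 hsN
      set U : ℝ := T / (2 * (nD (Dec p ν j) : ℝ)) with hU
      have h7 : (s * N : ℝ) * Y.a * lp * U = 0 := by linear_combination h5 / 2
      have h8 : (s * N : ℝ) * Y.a * lp ≠ 0 := by
        refine mul_ne_zero (mul_ne_zero hsN.ne' hYa.ne') hlp0
      have h9 : U = 0 := (mul_eq_zero.1 h7).resolve_left h8
      rw [hU] at h9
      rcases div_eq_zero_iff.1 h9 with h | h
      · exact h
      · exact absurd h (by positivity)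
    have h10 : ((∑ k, tf p ν j (St j (I k)) σ : ℤ) : ℝ) = 0 := h6
    exact Int.cast_eq_zero.1 h10

end

end Pool.Agent.N522.VT
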